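import Mathlib
import Pool.Agent.Q258.ErdosHeilbronn

/-!
# MP_6ea067_co: the largest 3-fold signed zero-sum-free sets in `ℤ/pℤ`

`τ±̂(ℤ_p, 3)` equals `2` for `p = 2`, `3` for `p = 5`, and `⌊p/3⌋ + 1` for every other prime `p`.
-/

namespace Pool.Agent.Results.MP_6ea067_co.TauSignedThree

open Finset Pool.Agent.Q258.EH
open scoped Pointwise

/-- The restricted signed `h`-fold sumset of a finite subset `A` of an abelian group `G`:
all signed sums `∑ ε_i a_i` of `h` pairwise distinct elements `a_i` of `A` with `ε_i = ±1`. -/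
def restrictedSignedSumset {G : Type*} [AddCommGroup G] (h : ℕ) (A : Finset G) : Set G :=
  {x | ∃ s : Finset G, s ⊆ A ∧ s.card = h ∧
    ∃ ε : G → ℤ, (∀ a ∈ s, ε a = 1 ∨ ε a = -1) ∧ x = ∑ a ∈ s, ε a • a}

/-- `τ±̂(G, h)`: the largest size of a finite subset `A` of `G` such that `0` is not in the
restricted signed `h`-fold sumset of `A`. -/
noncomputable def tau (G : Type*) [AddCommGroup G] (h : ℕ) : ℕ :=
  sSup {n | ∃ A : Finset G, A.card = n ∧ (0 : G) ∉ restrictedSignedSumset h A}

/-- The condition for `h = 3` written out. -/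
def Good {G : Type*} [AddCommGroup G] (A : Finset G) : Prop :=
  ∀ a ∈ A, ∀ b ∈ A, ∀ c ∈ A, a ≠ b → a ≠ c → b ≠ c → a + b + c ≠ 0 ∧ a + b ≠ c

lemma good_iff {G : Type*} [AddCommGroup G] (A : Finset G) :
    (0 : G) ∉ restrictedSignedSumset 3 A ↔ Good A := by
  classical
  constructor
  · intro h a ha b hb c hc hab hac hbc
    have hs : ({a, b, c} : Finset G) ⊆ A := by
      intro x hx
      simp only [mem_insert, mem_singleton] at hx
      rcases hx with rfl | rfl | rfl <;> assumption
    have hcard : ({a, b, c} : Finset G).card = 3 := card_eq_three.2 ⟨a, b, c, hab, hac, hbc, rfl⟩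
    have hsum : ∀ f : G → G, ∑ x ∈ ({a, b, c} : Finset G), f x = f a + f b + f c := by
      intro f
      rw [sum_insert (by simp [hab, hac]), sum_insert (by simp [hbc]), sum_singleton, add_assoc]
    constructor
    · intro h0
      apply h
      refine ⟨{a, b, c}, hs, hcard, fun _ => 1, fun _ _ => Or.inl rfl, ?_⟩
      rw [hsum]
      simp [h0]
    · intro h0
      apply h
      refine ⟨{a, b, c}, hs, hcard, fun x => if x = c then -1 else 1, ?_, ?_⟩
      · intro x _
        by_cases hx : x = c <;> simp [hx]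
      · rw [hsum]
        simp [hac, hbc, h0]
  · rintro hg ⟨s, hs, hcard, ε, hε, h0⟩
    obtain ⟨a, b, c, hab, hac, hbc, rfl⟩ := card_eq_three.1 hcard
    rw [sum_insert (by simp [hab, hac]), sum_insert (by simp [hbc]), sum_singleton] at h0
    have ha : a ∈ A := hs (by simp)
    have hb : b ∈ A := hs (by simp)
    have hc : c ∈ A := hs (by simp)
    have h1 := hg a ha b hb c hc hab hac hbc
    have h2 := hg a ha c hc b hb hac hab hbc.symm
    have h3 := hg b hb c hc a ha hbc hab.symm hac.symm
    have ea := hε a (by simp)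
    have eb := hε b (by simp)
    have ec := hε c (by simp)
    rcases ea with ea | ea <;> rcases eb with eb | eb <;> rcases ec with ec | ec <;>
      rw [ea, eb, ec] at h0 <;> simp only [one_smul, neg_smul] at h0
    · exact h1.1 (by rw [h0]; abel)
    · apply h1.2
      rw [← sub_eq_zero, h0]; abel
    · apply h2.2
      rw [← sub_eq_zero, h0]; abel
    · apply h3.2
      rw [← sub_eq_zero, ← neg_eq_zero, h0]; abel
    · apply h3.2
      rw [← sub_eq_zero, h0]; abel
    · apply h2.2
      rw [← sub_eq_zero, ← neg_eq_zero, h0]; abel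
    · apply h1.2
      rw [← sub_eq_zero, ← neg_eq_zero, h0]; abel
    · apply h1.1
      rw [← neg_eq_zero, h0]; abel

lemma Good.mono {G : Type*} [AddCommGroup G] {A B : Finset G} (h : Good A) (hB : B ⊆ A) :
    Good B := fun a ha b hb c hc => h a (hB ha) b (hB hb) c (hB hc)

/-! ### Upper bound -/

section upper

variable {p : ℕ} [Fact p.Prime]

lemma upper_no_zero (hp : 3 ≤ p) (A : Finset (ZMod p)) (hA : Good A) (h0 : (0 : ZMod p) ∉ A) :
    A.card ≤ p / 3 + 1 := by
  by_contra hlt
  push Not at hlt
  obtain ⟨B, hBA, hBc⟩ := exists_subset_card_eq (show p / 3 + 2 ≤ A.card by omega)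
  have hB := hA.mono hBA
  have h0B : (0 : ZMod p) ∉ B := fun h => h0 (hBA h)
  have hEH := erdos_heilbronn B (by omega) (by omega)
  have hdisj : Disjoint (dsum B) B := by
    rw [Finset.disjoint_left]
    intro x hx hxB
    obtain ⟨a, ha, b, hb, hab, rfl⟩ := mem_dsum.1 hx
    refine (hB a ha b hb (a + b) hxB hab ?_ ?_).2 rfl
    · intro h
      have : b = 0 := by simpa using h
      exact h0B (this ▸ hb)
    · intro h
      have : a = 0 := by simpa using h
      exact h0B (this ▸ ha)
  have hcard := card_le_univ (dsum B ∪ B)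
  rw [card_union_of_disjoint hdisj, ZMod.card] at hcard
  omega

lemma two_ne {p : ℕ} [Fact p.Prime] (hp : 7 ≤ p) : (2 : ZMod p) ≠ 0 := by
  intro h
  have : ((2 : ℕ) : ZMod p) = 0 := by exact_mod_cast h
  rw [ZMod.natCast_eq_zero_iff] at this
  exact absurd (Nat.le_of_dvd (by norm_num) this) (by omega)

lemma upper_zero (hp : 7 ≤ p) (A : Finset (ZMod p)) (hA : Good A) (h0 : (0 : ZMod p) ∈ A) :
    A.card ≤ p / 3 + 1 := by
  by_contra hlt
  push Not at hlt
  have hpr : p.Prime := Fact.out
  have hcA : (A.erase 0).card = A.card - 1 := card_erase_of_mem h0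
  obtain ⟨B, hBA, hBc⟩ := exists_subset_card_eq (show p / 3 + 1 ≤ (A.erase 0).card by omega)
  have hB : Good B := hA.mono (hBA.trans (erase_subset _ _))
  have h0B : (0 : ZMod p) ∉ B := fun h => (mem_erase.1 (hBA h)).1 rfl
  have h2 : (2 : ZMod p) ≠ 0 := two_ne hp
  -- `B` and `-B` are disjoint
  have hneg : ∀ a ∈ B, ∀ b ∈ B, a + b ≠ 0 := by
    intro a ha b hb hab
    have ha0 : a ≠ 0 := fun h => h0B (h ▸ ha)
    have hb0 : b ≠ 0 := fun h => h0B (h ▸ hb)
    by_cases h : a = b
    · subst h
      have : (2 : ZMod p) * a = 0 := by linear_combination hab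
      rcases mul_eq_zero.1 this with h' | h'
      · exact h2 h'
      · exact ha0 h'
    · have := (hA a (mem_erase.1 (hBA ha)).2 b (mem_erase.1 (hBA hb)).2 0 h0 h ha0 hb0).1
      apply this
      rw [hab]; simp
  set E := B.filter (fun a => -(2 * a) ∈ B) with hE
  set K := B.filter (fun a => 2 * a ∈ B) with hK
  have hEK : Disjoint E K := by
    rw [Finset.disjoint_left]
    intro a h1 h2
    rw [hE, mem_filter] at h1
    rw [hK, mem_filter] at h2
    exact hneg _ h1.2 _ h2.2 (by ring)
  have hEKc : E.card + K.card ≤ B.card := by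
    rw [← card_union_of_disjoint hEK]
    exact card_le_card (union_subset (filter_subset _ _) (filter_subset _ _))
  -- first count
  have hEH := erdos_heilbronn B (by omega) (by omega)
  have c1 : (dsum B).card + B.card + (B \ E).card + 1 ≤ p := by
    have d1 : Disjoint (dsum B) B := by
      rw [Finset.disjoint_left]
      intro x hx hxB
      obtain ⟨a, ha, b, hb, hab, rfl⟩ := mem_dsum.1 hx
      refine (hB a ha b hb (a + b) hxB hab ?_ ?_).2 rfl
      · intro h
        have : b = 0 := by simpa using h
        exact h0B (this ▸ hb)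
      · intro h
        have : a = 0 := by simpa using h
        exact h0B (this ▸ ha)
    have d2 : Disjoint (dsum B ∪ B) ((B \ E).image (fun x => -x)) := by
      rw [Finset.disjoint_left]
      intro x hx hx'
      obtain ⟨c, hc, rfl⟩ := mem_image.1 hx'
      rw [mem_sdiff] at hc
      rcases mem_union.1 hx with hx | hx
      · obtain ⟨a, ha, b, hb, hab, h⟩ := mem_dsum.1 hx
        by_cases hac : a = c
        · apply hc.2
          rw [hE, mem_filter]
          refine ⟨hc.1, ?_⟩
          have : -(2 * c) = b := by rw [← hac] at h ⊢; linear_combination -h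
          rwa [this]
        · by_cases hbc : b = c
          · apply hc.2
            rw [hE, mem_filter]
            refine ⟨hc.1, ?_⟩
            have : -(2 * c) = a := by rw [← hbc] at h ⊢; linear_combination -h
            rwa [this]
          · apply (hB a ha b hb c hc.1 hab hac hbc).1
            rw [h]; ring
      · exact hneg _ hx _ hc.1 (by ring)
    have d3 : Disjoint (dsum B ∪ B ∪ (B \ E).image (fun x => -x)) {0} := by
      rw [Finset.disjoint_right]
      intro x hx hx'
      rw [mem_singleton] at hx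
      subst hx
      rcases mem_union.1 hx' with hx' | hx'
      · rcases mem_union.1 hx' with hx' | hx'
        · obtain ⟨a, ha, b, hb, hab, h⟩ := mem_dsum.1 hx'
          exact hneg a ha b hb h
        · exact h0B hx'
      · obtain ⟨c, hc, h⟩ := mem_image.1 hx'
        rw [mem_sdiff] at hc
        exact h0B ((neg_eq_zero.1 h) ▸ hc.1)
    have := card_le_univ (dsum B ∪ B ∪ (B \ E).image (fun x => -x) ∪ {0})
    rw [card_union_of_disjoint d3, card_union_of_disjoint d2, card_union_of_disjoint d1,
      card_image_of_injective _ neg_injective, card_singleton, ZMod.card] at this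
    exact this
  have e1 : (B \ E).card = B.card - E.card := card_sdiff_of_subset (filter_subset _ _)
  -- second count
  set D := B.offDiag.image (fun x : ZMod p × ZMod p => x.1 - x.2) with hD
  have hDc : 2 * B.card - 2 ≤ D.card := by
    have hBne : B.Nonempty := card_pos.1 (by omega)
    have hcd := ZMod.cauchy_davenport hpr hBne (t := B.image (fun x => -x)) (hBne.image _)
    rw [card_image_of_injective _ neg_injective] at hcd
    have hsub : B + B.image (fun x => -x) ⊆ insert 0 D := by
      intro x hx
      rw [mem_add] at hx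
      obtain ⟨a, ha, b', hb', rfl⟩ := hx
      obtain ⟨b, hb, rfl⟩ := mem_image.1 hb'
      by_cases hab : a = b
      · rw [hab]; simp
      · apply mem_insert_of_mem
        rw [hD]
        refine mem_image.2 ⟨(a, b), mem_offDiag.2 ⟨ha, hb, hab⟩, ?_⟩
        simp [sub_eq_add_neg]
    have h3 := card_le_card hsub
    have h4 := card_insert_le (0 : ZMod p) D
    have h5 : min p (B.card + B.card - 1) = B.card + B.card - 1 := min_eq_right (by omega)
    rw [h5] at hcd
    omega
  have hDmem : ∀ x ∈ D, ∃ a ∈ B, ∃ b ∈ B, a ≠ b ∧ a - b = x := by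
    intro x hx
    obtain ⟨⟨a, b⟩, hab, h⟩ := mem_image.1 hx
    rw [mem_offDiag] at hab
    exact ⟨a, hab.1, b, hab.2.1, hab.2.2, h⟩
  have hDB : ∀ c ∈ B, ∀ a ∈ B, ∀ b ∈ B, a ≠ b → a - b = c → c ∈ K := by
    intro c hc a ha b hb hab h
    have hac : a ≠ c := by
      intro h'
      have : b = 0 := by rw [h'] at h; linear_combination -h
      exact h0B (this ▸ hb)
    by_cases hbc : b = c
    · rw [hK, mem_filter]
      refine ⟨hc, ?_⟩
      have : 2 * c = a := by rw [← hbc] at h ⊢; linear_combination -h
      rwa [this]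
    · exfalso
      apply (hB b hb c hc a ha hbc hab.symm hac.symm).2
      linear_combination -h
  have c2 : D.card + (B \ K).card + (B \ K).card + 1 ≤ p := by
    have d1 : Disjoint D (B \ K) := by
      rw [Finset.disjoint_left]
      intro x hx hxB
      obtain ⟨a, ha, b, hb, hab, h⟩ := hDmem x hx
      rw [mem_sdiff] at hxB
      exact hxB.2 (hDB x hxB.1 a ha b hb hab h)
    have d2 : Disjoint (D ∪ (B \ K)) ((B \ K).image (fun x => -x)) := by
      rw [Finset.disjoint_left]
      intro x hx hx'
      obtain ⟨c, hc, rfl⟩ := mem_image.1 hx'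
      rw [mem_sdiff] at hc
      rcases mem_union.1 hx with hx | hx
      · obtain ⟨a, ha, b, hb, hab, h⟩ := hDmem _ hx
        exact hc.2 (hDB c hc.1 b hb a ha hab.symm (by linear_combination -h))
      · exact hneg _ (mem_sdiff.1 hx).1 _ hc.1 (by ring)
    have d3 : Disjoint (D ∪ (B \ K) ∪ (B \ K).image (fun x => -x)) {0} := by
      rw [Finset.disjoint_right]
      intro x hx hx'
      rw [mem_singleton] at hx
      subst hx
      rcases mem_union.1 hx' with hx' | hx'
      · rcases mem_union.1 hx' with hx' | hx'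
        · obtain ⟨a, ha, b, hb, hab, h⟩ := hDmem _ hx'
          exact hab (sub_eq_zero.1 h)
        · exact h0B (mem_sdiff.1 hx').1
      · obtain ⟨c, hc, h⟩ := mem_image.1 hx'
        rw [mem_sdiff] at hc
        exact h0B ((neg_eq_zero.1 h) ▸ hc.1)
    have := card_le_univ (D ∪ (B \ K) ∪ (B \ K).image (fun x => -x) ∪ {0})
    rw [card_union_of_disjoint d3, card_union_of_disjoint d2, card_union_of_disjoint d1,
      card_image_of_injective _ neg_injective, card_singleton, ZMod.card] at this
    exact this
  have e2 : (B \ K).card = B.card - K.card := card_sdiff_of_subset (filter_subset _ _)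
  omega

end upper

/-! ### Lower bound -/

lemma good_interval (p l u : ℕ) (hu : u < p) (h1 : p < 3 * l + 3) (h2 : 3 * u < 2 * p + 3)
    (h3 : u < 2 * l + 1) (h4 : 2 * u < l + p + 1) :
    Good ((Finset.Icc l u).image (Nat.cast : ℕ → ZMod p)) := by
  intro x hx y hy z hz hxy hxz hyz
  obtain ⟨a, ha, rfl⟩ := mem_image.1 hx
  obtain ⟨b, hb, rfl⟩ := mem_image.1 hy
  obtain ⟨c, hc, rfl⟩ := mem_image.1 hz
  have hab : a ≠ b := fun h => hxy (by rw [h])
  have hac : a ≠ c := fun h => hxz (by rw [h])
  have hbc : b ≠ c := fun h => hyz (by rw [h])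
  rw [mem_Icc] at ha hb hc
  constructor
  · intro h
    have h' : ((a + b + c : ℕ) : ZMod p) = 0 := by push_cast; exact h
    rw [ZMod.natCast_eq_zero_iff] at h'
    obtain ⟨q, hq⟩ := h'
    have hq1 : q < 2 := by
      by_contra hq2
      push Not at hq2
      have : p * 2 ≤ p * q := Nat.mul_le_mul_left p hq2
      omega
    have hq0 : 1 < q := by
      by_contra hq2
      push Not at hq2
      have : p * q ≤ p * 1 := Nat.mul_le_mul_left p hq2
      omega
    omega
  · intro h
    have h' : ((a + b : ℕ) : ZMod p) = (c : ℕ) := by push_cast; exact h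
    have h'' : ((a + b - c : ℕ) : ZMod p) = 0 := by
      rw [Nat.cast_sub (by omega), h', sub_self]
    rw [ZMod.natCast_eq_zero_iff] at h''
    have := Nat.le_of_dvd (by omega) h''
    omega

lemma card_interval (p l u : ℕ) (hu : u < p) :
    ((Finset.Icc l u).image (Nat.cast : ℕ → ZMod p)).card = u + 1 - l := by
  rw [card_image_of_injOn, Nat.card_Icc]
  intro a ha b hb h
  rw [Finset.coe_Icc, Set.mem_Icc] at ha hb
  have := (ZMod.natCast_eq_natCast_iff' a b p).1 h
  rwa [Nat.mod_eq_of_lt (by omega), Nat.mod_eq_of_lt (by omega)] at this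

lemma lower (p : ℕ) [Fact p.Prime] (hp : 7 ≤ p) :
    ∃ A : Finset (ZMod p), A.card = p / 3 + 1 ∧ Good A := by
  have h3 : p % 3 ≠ 0 := by
    intro h
    have h3 : 3 ∣ p := Nat.dvd_of_mod_eq_zero h
    have := (Nat.prime_dvd_prime_iff_eq Nat.prime_three Fact.out).1 h3
    omega
  rcases (by omega : p % 3 = 1 ∨ p % 3 = 2) with h | h
  · refine ⟨_, ?_, good_interval p (p / 3) (2 * (p / 3)) (by omega) (by omega) (by omega)
      (by omega) (by omega)⟩
    rw [card_interval _ _ _ (by omega)]
    omega
  · refine ⟨_, ?_, good_interval p (p / 3 + 1) (2 * (p / 3) + 1) (by omega) (by omega) (by omega)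
      (by omega) (by omega)⟩
    rw [card_interval _ _ _ (by omega)]
    omega

instance {p : ℕ} (A : Finset (ZMod p)) : Decidable (Good A) := by
  unfold Good; infer_instance

lemma small2 : IsGreatest {n | ∃ A : Finset (ZMod 2), A.card = n ∧ Good A} 2 := by
  constructor
  · exact ⟨{0, 1}, by decide, by decide⟩
  · rintro n ⟨A, rfl, -⟩
    have := card_le_univ A
    rwa [ZMod.card] at this

lemma small3 : IsGreatest {n | ∃ A : Finset (ZMod 3), A.card = n ∧ Good A} 2 := by
  constructor
  · exact ⟨{0, 1}, by decide, by decide⟩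
  · rintro n ⟨A, rfl, h⟩
    revert A
    decide

lemma small5 : IsGreatest {n | ∃ A : Finset (ZMod 5), A.card = n ∧ Good A} 3 := by
  constructor
  · exact ⟨{0, 1, 2}, by decide, by decide⟩
  · rintro n ⟨A, rfl, h⟩
    revert A
    decide

lemma greatest (p : ℕ) [hp : Fact p.Prime] :
    IsGreatest {n | ∃ A : Finset (ZMod p), A.card = n ∧ Good A}
      (if p = 2 then 2 else if p = 5 then 3 else p / 3 + 1) := by
  have hpr : p.Prime := hp.out
  by_cases h2 : p = 2
  · subst h2
    simpa using small2
  by_cases h5 : p = 5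
  · subst h5
    simpa using small5
  by_cases h3 : p = 3
  · subst h3
    simpa using small3
  have h7 : 7 ≤ p := by
    by_contra h
    push Not at h
    interval_cases p <;> first | omega | exact absurd hpr (by decide)
  rw [if_neg h2, if_neg h5]
  constructor
  · exact lower p h7
  · rintro n ⟨A, rfl, hA⟩
    by_cases h0 : (0 : ZMod p) ∈ A
    · exact upper_zero h7 A hA h0
    · exact upper_no_zero (by omega) A hA h0

/-- For every prime `p`, the number `τ±̂(ℤ_p, 3)` is `2` if `p = 2`, `3` if `p = 5` and
`⌊p/3⌋ + 1` otherwise; it is attained. -/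
theorem result (p : ℕ) (hp : p.Prime) :
    IsGreatest {n | ∃ A : Finset (ZMod p), A.card = n ∧ (0 : ZMod p) ∉ restrictedSignedSumset 3 A}
      (tau (ZMod p) 3) ∧
    tau (ZMod p) 3 = if p = 2 then 2 else if p = 5 then 3 else p / 3 + 1 := by
  have : Fact p.Prime := ⟨hp⟩
  have h := greatest p
  have hset : {n | ∃ A : Finset (ZMod p), A.card = n ∧ Good A} =
      {n | ∃ A : Finset (ZMod p), A.card = n ∧ (0 : ZMod p) ∉ restrictedSignedSumset 3 A} := by
    ext n
    simp only [Set.mem_ofPred_eq, good_iff]
  rw [hset] at h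
  have ht : tau (ZMod p) 3 = if p = 2 then 2 else if p = 5 then 3 else p / 3 + 1 := h.csSup_eq
  exact ⟨ht ▸ h, ht⟩

end Pool.Agent.Results.MP_6ea067_co.TauSignedThree
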